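import Pool.Agent.HSIO.Hered

/-!
# The Hilbert-Smith statement with regularity only on continua of points with infinite orbit

Let `X` be a metric space, `n = d + 1`, and let `R` be a dense open connected subset of `X` all of
whose points have bi-Lipschitz Euclidean charts (`regPts n X`), for instance a finite-dimensional
Alexandrov space with `R` its set of such points. Let `G` be a topological group that acts
continuously on `X` and let `N` be the set of the points of `R` with infinite orbit under a
continuous homomorphism `θ` from the `p`-adic integers to `G`. Unless `N` is empty, we assume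
(`HypAt`) that near one point of `R` in the closure of `N` every continuum of points of `N` that is
invariant under an open subgroup is tame (`TameCont`): a countable closed set disconnects it, or the
averaged oscillation energy is small near one of its points, or the maps are regular (relative to
`N`) at not too few of its points. Then an open subgroup of the `p`-adic integers acts trivially,
and the whole image acts trivially if it lies in a certain neighbourhood of the identity of `G`.
-/

set_option autoImplicit false

open Set MeasureTheory Metric Filter Topology

namespace Pool.Agent.Results.MP_afaf30_gt.InfiniteOrbits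

open Pool.Agent.Helper3.HS Pool.Agent.HSIO

theorem result : ∀ (d : ℕ) (X : Type*) [MetricSpace X] [MeasurableSpace X] [BorelSpace X]
    (G : Type*) [Group G] [TopologicalSpace G] [IsTopologicalGroup G]
    [MulAction G X] [ContinuousSMul G X] (R : Set X),
    IsOpen R → Dense R → IsPreconnected R → R ⊆ regPts (d + 1) X →
    ∃ V ∈ 𝓝 (1 : G), ∀ (p : ℕ) [Fact p.Prime] [MeasurableSpace ℤ_[p]] [BorelSpace ℤ_[p]]
      (ν : Measure ℤ_[p]) [ν.IsAddHaarMeasure] [IsProbabilityMeasure ν]
      (θ : Multiplicative ℤ_[p] →* G), Continuous θ →
      ((InfOrb R θ).Nonempty → ∃ x₀ ∈ R ∩ closure (InfOrb R θ), HypAt d R p ν θ x₀) →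
      (∃ k : ℕ, ∀ (a : ℤ_[p]) (x : X),
        θ (Multiplicative.ofAdd ((p : ℤ_[p]) ^ k * a)) • x = x) ∧
      ((∀ a, θ a ∈ V) → ∀ a (x : X), θ a • x = x) := by
  intro d X _ _ _ G _ _ _ _ _ R hRo hRd hRc hR
  exact final_her hRo hRd hRc hR

end Pool.Agent.Results.MP_afaf30_gt.InfiniteOrbits
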