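import Pool.Agent.AXS.Lift
import Pool.Agent.AXS.FinC

/-!
# Large linear groups do not act on compact Alexandrov spaces

Let `n ≥ 1` and let `Y` be a compact metric space which is locally contractible and orientable in
dimension `n`, and in which the complement of a dense open connected set of points with bi-Lipschitz
Euclidean charts has `n`-dimensional Hausdorff measure zero; for instance a compact orientable
`n`-dimensional Alexandrov space without boundary, or a closed connected orientable Lipschitz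
manifold. Let `π : Y → X` be a resolution, for instance the identity, the orientation covering of a
non-orientable space or the double of a space with boundary. Let `F` be an infinite field of
characteristic not two, for instance `ℚ_p`. Then every action of `SL_m(F)`, `m ≥ 2 n + 1`, by
homeomorphisms of `X` is trivial, and no action of the product of `n + 1` copies of `SL_2(F)` is
faithful. Neither continuity of the action in the group variable nor any regularity of the
homeomorphisms is used.
-/

set_option autoImplicit false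

open Set Metric MeasureTheory Topology Matrix

namespace Pool.Agent.Results.MP_afaf30_gt.LinearGroups

open Pool.Agent.Helper3.HS Pool.Agent.AXS

/-- Alexander-Spanier cocycles of degree `n`. Cochains of degree `n` are the functions on the lists
of `n + 1` points, two of which are identified if they agree on all lists of sufficiently small
diameter, and `dd` is the usual coboundary. -/
def Cocycle (n : ℕ) {Y V : Type*} [MetricSpace Y] [AddCommGroup V] (w : List Y → V) : Prop :=
  ∃ ε > 0, ∀ l : List Y, l.length = n + 2 → (∀ x ∈ l, ∀ y ∈ l, dist x y < ε) → dd w l = 0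

/-- Alexander-Spanier coboundaries of degree `n`, `n ≥ 1`. -/
def Cobound (n : ℕ) {Y V : Type*} [MetricSpace Y] [AddCommGroup V] (w : List Y → V) : Prop :=
  ∃ g : List Y → V, ∃ ε > 0, ∀ l : List Y, l.length = n + 1 →
    (∀ x ∈ l, ∀ y ∈ l, dist x y < ε) → w l = dd g l

/-- `Y` is orientable in dimension `n`: there is a cocycle `w` of degree `n` with coefficients in
`ℤ/2^(n+1)` such that `2^n w` is not a coboundary. -/
def Orientable (n : ℕ) (Y : Type*) [MetricSpace Y] : Prop :=
  ∃ w : List Y → ZMod (2 ^ (n + 1)), Cocycle n w ∧ ¬ Cobound n (2 ^ n • w)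

/-- `π : Y → X` is a resolution: it is surjective, every homeomorphism of `X` lifts to `Y`, the group
of the homeomorphisms of `Y` over `X` is finite and acts faithfully on `H^n(Y; ℤ/2^(n+1))`. -/
structure Resolution (n : ℕ) {Y X : Type*} [MetricSpace Y] [TopologicalSpace X] (π : Y → X) :
    Prop where
  surj : Function.Surjective π
  lift : ∀ f : X ≃ₜ X, ∃ h : Y ≃ₜ Y, ∀ y, π (h y) = f (π y)
  fin : {h : Y ≃ₜ Y | ∀ y, π (h y) = π y}.Finite
  faithful : ∀ h : Y ≃ₜ Y, (∀ y, π (h y) = π y) → h ≠ 1 →
    ∃ w : List Y → ZMod (2 ^ (n + 1)), Cocycle n w ∧ ¬ Cobound n (fun l => w (l.map h) - w l)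

/-- The identity is a resolution. -/
theorem resolution_id (n : ℕ) (Y : Type*) [MetricSpace Y] : Resolution n (id : Y → Y) where
  surj := Function.surjective_id
  lift f := ⟨f, fun _ => rfl⟩
  fin := (Set.finite_singleton (1 : Y ≃ₜ Y)).subset fun _ h => Homeomorph.ext h
  faithful _ h hne := absurd (Homeomorph.ext h) hne

section Translate

variable {Y V : Type*} [MetricSpace Y] [AddCommGroup V] {d : ℕ}

theorem mem_ZZ_of {w : Co Y V} (h : Cocycle (d + 1) w) :
    w ∈ (ZZ dH TT (DT All) (d + 1) : AddSubgroup (Co Y V)) := by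
  obtain ⟨ε, hε, hw⟩ := h
  exact ⟨trivial, ⟨ε, hε, fun l hl hs _ => hw l hl hs⟩⟩

theorem cobound_of {w : Co Y V} (h : w ∈ BB dH TT (DT All) (d + 1)) : Cobound (d + 1) w := by
  obtain ⟨g, -, ε, hε, h4⟩ := mem_BB_succ.1 h
  exact ⟨g, ε, hε, fun l hl hs => sub_eq_zero.1 (h4 l hl hs trivial)⟩

theorem orient_of (h : Orientable (d + 1) Y) : Orient Y (d + 1) := by
  obtain ⟨w, hw, h2⟩ := h
  exact ⟨w, mem_ZZ_of hw, fun h3 => h2 (cobound_of h3)⟩

end Translate

/-- The signs in the centre of `SL_2(F) ^ r`. -/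
theorem exists_signs (F : Type*) [Field F] (h2 : (2 : F) ≠ 0) (r : ℕ) :
    ∃ s : (Fin r → Multiplicative (ZMod 2)) →* (Fin r → SpecialLinearGroup (Fin 2) F),
      (∀ b g, s b * g = g * s b) ∧ ∀ b, b ≠ 1 → s b ≠ 1 := by
  refine ⟨sgnPi F r, fun b g => funext fun k => sgn2_comm (b k) (g k), fun b hb h => ?_⟩
  obtain ⟨k, hk⟩ : ∃ k, b k ≠ 1 := by
    by_contra hno
    push Not at hno
    exact hb (funext hno)
  apply (sgn1_ne61' h2 (b k)).2 hk
  have h3 : sgn2 F (b k) = 1 := congrFun h k
  have h4 : Matrix.diagonal (fun _ : Fin 2 => sgn1 F (b k)) = 1 := congrArg Subtype.val h3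
  have h5 := congrFun (congrFun h4 0) 0
  rwa [Matrix.diagonal_apply_eq, Matrix.one_apply_eq] at h5

/-- Actions of groups without subgroups of finite index lift to a resolution. -/
theorem exists_lift {d : ℕ} {Y : Type*} [MetricSpace Y] [CompactSpace Y] (hfin : FinC Y (d + 1))
    {X : Type*} [TopologicalSpace X] {π : Y → X} (hπ : Resolution (d + 1) π)
    {G : Type*} [Group G] [MulAction G X] [ContinuousConstSMul G X]
    {L : Type*} [Group L] (hL : ∀ H : Subgroup L, H.FiniteIndex → H = ⊤) (θ : L →* G) :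
    ∃ T : L →* (Y ≃ₜ Y), ∀ g y, π (T g y) = θ g • π y := by
  let i : MulAction L X := MulAction.compHom X θ
  refine lift_action (V := ZMod (2 ^ (d + 1 + 1))) (finH_abs hfin (d + 1) (d + 1) le_rfl) π hπ.fin
    (fun h h1 h2 => ?_) hL fun g => hπ.lift (Homeomorph.smul (θ g))
  obtain ⟨w, hw, h3⟩ := hπ.faithful h h1 h2
  exact ⟨w, mem_ZZ_of hw, fun h4 => h3 (cobound_of h4)⟩

/-- The action of a group of homeomorphisms. -/
@[reducible] def actOf {L Y : Type*} [Group L] [TopologicalSpace Y] (T : L →* (Y ≃ₜ Y)) :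
    MulAction L Y where
  smul g y := T g y
  one_smul y := by
    change T 1 y = y
    rw [map_one]
    rfl
  mul_smul a b y := by
    change T (a * b) y = T a (T b y)
    rw [map_mul]
    rfl

/-- Part (2) of the theorem. -/
theorem central_all {d : ℕ} {Y : Type*} [MetricSpace Y] [CompactSpace Y] [MeasurableSpace Y]
    [BorelSpace Y] (hfin : FinC Y (d + 1)) (hor : Orientable (d + 1) Y) {R : Set Y}
    (hRo : IsOpen R) (hRd : Dense R) (hRc : IsPreconnected R) (hR : R ⊆ regPts (d + 1) Y)
    (hS : (μH[((d + 1 : ℕ) : ℝ)] : Measure Y) Rᶜ = 0)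
    {X : Type*} [TopologicalSpace X] {π : Y → X} (hπ : Resolution (d + 1) π)
    {G : Type*} [Group G] [MulAction G X] [ContinuousConstSMul G X]
    {L : Type*} [Group L] (hL : ∀ H : Subgroup L, H.FiniteIndex → H = ⊤)
    (s : (Fin (d + 1 + 1) → Multiplicative (ZMod 2)) →* L) (hs : ∀ b g, s b * g = g * s b)
    (θ : L →* G) : ∃ b, b ≠ 1 ∧ ∀ x : X, θ (s b) • x = x := by
  rcases isEmpty_or_nonempty Y with hY | hY
  · obtain ⟨b, hb⟩ := exists_ne (1 : Fin (d + 1 + 1) → Multiplicative (ZMod 2))
    exact ⟨b, hb, fun x => (hY.false (hπ.surj x).choose).elim⟩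
  · obtain ⟨T, hT⟩ := exists_lift hfin hπ hL θ
    let i1 : MulAction L Y := actOf T
    have : ContinuousConstSMul L Y := ⟨fun c => (T c).continuous⟩
    obtain ⟨b, hb, h⟩ := central_main hfin hRo hRd hRc hR hS (orient_of hor) hL s hs
    refine ⟨b, hb, fun x => ?_⟩
    obtain ⟨y, rfl⟩ := hπ.surj x
    rw [← hT]
    exact congrArg π (h y)

/-- **Theorem.** Let `n ≥ 1` and let `Y` be a compact metric space which is locally contractible and
orientable in dimension `n`, and let `R` be a dense open connected set of points of `Y` which have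
neighbourhoods bi-Lipschitz homeomorphic to open subsets of `ℝⁿ`, whose complement has
`n`-dimensional Hausdorff measure zero. Let `π : Y → X` be a resolution (for instance the identity).
Let `F` be an infinite field with `2 ≠ 0` and let the group `G` act on `X` by homeomorphisms.
(1) Every homomorphism `SL_m(F) → G`, `m ≥ 2 n + 1`, acts trivially on `X`. (2) If `L` is a group
without proper subgroups of finite index (for instance `SL_2(F)^(n+1)`, see `sl_two`) and
`(ℤ/2)^(n+1)` is mapped to its centre, then for every homomorphism `L → G` some element `≠ 1` of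
`(ℤ/2)^(n+1)` acts trivially. -/
theorem result {n : ℕ} (hn : 1 ≤ n) {Y : Type*} [MetricSpace Y] [CompactSpace Y]
    [MeasurableSpace Y] [BorelSpace Y] (hY : LocContr Y) (hor : Orientable n Y)
    {R : Set Y} (hRo : IsOpen R) (hRd : Dense R) (hRc : IsPreconnected R) (hR : R ⊆ regPts n Y)
    (hS : (μH[n] : Measure Y) Rᶜ = 0)
    {X : Type*} [TopologicalSpace X] {π : Y → X} (hπ : Resolution n π)
    {F : Type*} [Field F] [Infinite F] (h2 : (2 : F) ≠ 0)
    {G : Type*} [Group G] [MulAction G X] [ContinuousConstSMul G X] :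
    (∀ m, 2 * n + 1 ≤ m → ∀ (θ : SpecialLinearGroup (Fin m) F →* G)
      (g : SpecialLinearGroup (Fin m) F) (x : X), θ g • x = x) ∧
    ∀ (L : Type*) [Group L], (∀ H : Subgroup L, H.FiniteIndex → H = ⊤) →
      ∀ s : (Fin (n + 1) → Multiplicative (ZMod 2)) →* L, (∀ b g, s b * g = g * s b) →
      ∀ θ : L →* G, ∃ b, b ≠ 1 ∧ ∀ x : X, θ (s b) • x = x := by
  obtain ⟨d, rfl⟩ : ∃ d, n = d + 1 := ⟨n - 1, by omega⟩
  have hfin : FinC Y (d + 1) := fun j _ => finH_of_locContr hY j
  refine ⟨fun m hm θ g x => ?_, fun L _ hL s hs θ =>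
    central_all hfin hor hRo hRd hRc hR hS hπ hL s hs θ⟩
  obtain ⟨T, hT⟩ := exists_lift hfin hπ (fun H hH => sl_fin' F h2 H hH) θ
  obtain ⟨y, rfl⟩ := hπ.surj x
  let i1 : MulAction (SpecialLinearGroup (Fin m) F) Y := actOf T
  have : ContinuousConstSMul (SpecialLinearGroup (Fin m) F) Y := ⟨fun c => (T c).continuous⟩
  rw [← hT]
  exact congrArg π (sl_main hm F h2 hfin hRo hRd hRc hR hS (orient_of hor) (MonoidHom.id _) g y)

/-- The case `L = SL_2(F)^(n+1)` of part (2): for every homomorphism `SL_2(F)^(n+1) → G` some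
element `≠ 1` acts trivially. -/
theorem sl_two {n : ℕ} (hn : 1 ≤ n) {Y : Type*} [MetricSpace Y] [CompactSpace Y]
    [MeasurableSpace Y] [BorelSpace Y] (hY : LocContr Y) (hor : Orientable n Y)
    {R : Set Y} (hRo : IsOpen R) (hRd : Dense R) (hRc : IsPreconnected R) (hR : R ⊆ regPts n Y)
    (hS : (μH[n] : Measure Y) Rᶜ = 0)
    {X : Type*} [TopologicalSpace X] {π : Y → X} (hπ : Resolution n π)
    {F : Type*} [Field F] [Infinite F] (h2 : (2 : F) ≠ 0)
    {G : Type*} [Group G] [MulAction G X] [ContinuousConstSMul G X]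
    (θ : (Fin (n + 1) → SpecialLinearGroup (Fin 2) F) →* G) :
    ∃ g, g ≠ 1 ∧ ∀ x : X, θ g • x = x := by
  obtain ⟨s, hs, hne⟩ := exists_signs F h2 (n + 1)
  obtain ⟨b, hb, h⟩ := (result hn hY hor hRo hRd hRc hR hS hπ h2 (G := G)).2 _
    (fun H hH => sl2_pow' h2 H hH) s hs θ
  exact ⟨s b, hne b hb, h⟩

end Pool.Agent.Results.MP_afaf30_gt.LinearGroups
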