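import Pool.Agent.PG.FinalSimple

/-!
# Hoelder actions of Lie groups over the `p`-adic numbers: the dimension bound

Let `n = d + 1`, let `X` be a metric space and let `R` be a dense open connected set of points
with bi-Lipschitz Euclidean charts (`regPts n X`), for instance a finite-dimensional Alexandrov
space. A topological group `G` acts continuously on `X` by homeomorphisms. Let `Γ` be a Lie group
over `ℚ_p`, in the sense of Mathlib, and suppose that its Lie algebra is simple of dimension at
least `m ^ 2`, or more generally that every proper subalgebra of its Lie algebra has codimension at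
least `m`. If `m` is large compared with the Hoelder exponents, then every continuous homomorphism
from `Γ` to `G` is trivial on an open subgroup of `Γ`, as far as the action on `X` is concerned.
-/

set_option autoImplicit false

open Set Topology Metric
open scoped Manifold ContDiff

namespace Pool.Agent.Results.MP_afaf30_gt.PadicLieGroups

open Pool.Agent.Helper3.HS Pool.Agent.HSF Pool.Agent.PG

/-- Let `n = d + 1`, let `X` be a metric space with a dense open connected set `R` of regular
points of dimension `n`, and let the topological group `G` act continuously on `X`. Let `Γ` be an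
analytic Lie group over `ℚ_p` and let `m ≥ 1` be such that every proper subalgebra of the Lie
algebra of `Γ` has codimension at least `m`, or the Lie algebra of `Γ` is simple and `Γ` has
dimension at least `m ^ 2`. If for every `x₀ ∈ R` the set of the `g ∈ G` which are Hoelder continuous
near `x₀` with some exponent `b` such that `n - 1 < b (n - 1 + m)` is not meagre in `G`, then for every
continuous homomorphism `θ : Γ → G` there is an open subgroup `U` of `Γ` such that `θ a` acts as the
identity for all `a ∈ U`. -/
theorem result {p : ℕ} [Fact p.Prime] {E : Type*} [NormedAddCommGroup E] [NormedSpace ℚ_[p] E]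
    [FiniteDimensional ℚ_[p] E] {Γ : Type*} [TopologicalSpace Γ] [ChartedSpace E Γ] [Group Γ]
    [LieGroup 𝓘(ℚ_[p], E) ω Γ] {m d : ℕ} (hm₀ : 1 ≤ m)
    (hm : SubalgCodim ℚ_[p] (GroupLieAlgebra 𝓘(ℚ_[p], E) Γ) m ∨
      (SimpleAlg ℚ_[p] (GroupLieAlgebra 𝓘(ℚ_[p], E) Γ) ∧ m ^ 2 ≤ Module.finrank ℚ_[p] E))
    {X : Type*} [MetricSpace X] {G : Type*} [Group G] [TopologicalSpace G]
    [IsTopologicalGroup G] [MulAction G X] [ContinuousSMul G X] {R : Set X}
    (hRo : IsOpen R) (hRd : Dense R) (hRc : IsPreconnected R) (hR : R ⊆ regPts (d + 1) X)
    (hH : ∀ x₀ ∈ R, ¬ IsMeagre {g : G | ∃ b : ℝ, (d : ℝ) < b * (d + m) ∧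
      HolderNear b (fun x : X => g • x) x₀})
    (θ : Γ →* G) (hθ : Continuous θ) :
    ∃ U : Subgroup Γ, IsOpen (U : Set Γ) ∧ ∀ a ∈ U, ∀ x : X, θ a • x = x :=
  Pool.Agent.PG.final_simple hm₀ hm hRo hRd hRc hR hH θ hθ

end Pool.Agent.Results.MP_afaf30_gt.PadicLieGroups
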