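import Pool.Agent.Helper3.HS4.Global4

/-!
# p-adic actions with a slow element

Let `R` be a dense open connected set of regular points of the metric space `X`, of dimension
`n = d + 1`, and let the `p`-adic integers act continuously on `X`. Only the iterates of one
nonzero element `a` near each point of `R` (the element may depend on the point) are controlled:
the mean distance of two orbits of length `p ^ N`, and the displacement of the points by
`p ^ N * a`. No rate of convergence of `p ^ N * a` to the identity is assumed.
-/

set_option autoImplicit false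

open Set Metric Filter Topology

namespace Pool.Agent.Results.MP_afaf30_gt.SlowGenerator

open Pool.Agent.Helper3.HS Pool.Agent.Helper3.HS4

/-- Let `n = d + 1`, let `X` be a metric space with a dense open connected set `R` of regular
points, and let the `p`-adic integers act continuously on `X`. If the family of the maps
`y ↦ a + y`, `a ≠ 0`, is piecewise slow on `R`, then for some `k` all elements of `p ^ k ℤ_p` act
as the identity of `X`. -/
theorem result {d p : ℕ} [Fact p.Prime] {X : Type*} [MetricSpace X]
    [AddAction ℤ_[p] X] [ContinuousVAdd ℤ_[p] X]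
    {R : Set X} (hRo : IsOpen R) (hRd : Dense R) (hRc : IsPreconnected R)
    (hR : R ⊆ regPts (d + 1) X)
    (hs : PieceSlow p (d + 1) R (fun (a : {a : ℤ_[p] // a ≠ 0}) (y : X) => a.1 +ᵥ y)) :
    ∃ k : ℕ, ∀ (a : ℤ_[p]) (x : X), ((p : ℤ_[p]) ^ k * a) +ᵥ x = x := by
  have hcs : ContinuousSMul (Multiplicative ℤ_[p]) X := by
    constructor
    have h1 : Continuous (fun q : ℤ_[p] × X => q.1 +ᵥ q.2) := continuous_vadd
    exact h1.comp (f := fun q : Multiplicative ℤ_[p] × X => (Multiplicative.toAdd q.1, q.2))
      ((continuous_toAdd.comp continuous_fst).prodMk continuous_snd)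
  obtain ⟨k, hk⟩ := global4 hRo hR hRd hRc (θ := MonoidHom.id (Multiplicative ℤ_[p]))
    continuous_id hs
  exact ⟨k, fun a x => hk a x⟩

end Pool.Agent.Results.MP_afaf30_gt.SlowGenerator
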